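import Pool.Agent.H89.D2.Ex
import Pool.Agent.H66.D2.Wfe

/-!
# (E_x) at the windows of a static cell

`CEv.ex`: `ex_cev` in the letters `kT`, `gG` of the event.
-/

set_option autoImplicit false

namespace Pool.TN

open Finset Real MvPolynomial
open Pool.Agent.H49.Ent Pool.Agent.H32.Dense Pool.STK Pool.KA Pool.KSAT Pool.K2S Pool.PB Pool.S6C
open Pool.GEN Pool.CHT Pool.CHX Pool.ISO Pool.D2R Pool.D2Z Pool.D2F Pool.RCV

/-- **(E_x) at every window `k`**, for every rough coordinate `x`. -/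
theorem CEv.ex (r : ℕ) : ∃ C : ℕ, 1 ≤ C ∧ ∀ {m J : ℕ} {F : Fam m J} {c : ℕ → Fin m}
    {D Dr N M A cl : ℕ} {Sc : ℕ → Prop} {w e h pp : ℕ → ℕ} {z g gc gT g₀ : ℕ → ℕ → ℕ} {κ : ℝ}
    {B : F.Ω → Prop} {G : ℕ → PtT F → ℕ → MvPolynomial (Option (Fin m)) ℝ}
    {H : ℕ → LnT F → ℕ → MvPolynomial (Option (Fin m)) ℝ}
    {T : ℕ → PtT F → ℕ → MvPolynomial (Option (Fin m)) ℝ}
    {TH : ℕ → LnT F → ℕ → MvPolynomial (Option (Fin m)) ℝ}
    {Gt : ℕ → PtT F → MvPolynomial (Option (Fin m)) ℝ}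
    {Ht : ℕ → LnT F → MvPolynomial (Option (Fin m)) ℝ},
    CEv F c r D Dr N M A cl Sc w e h pp z g gc gT g₀ κ B G H T TH Gt Ht →
    ∀ {i₀ i₁ k P X : ℕ}, i₀ ≤ N → i₁ ≤ N → k ≤ N → w i₀ ≤ w k → w i₁ ≤ w k →
    (∀ l < r, Sc l → cl ≤ gT i₀ l ∧ cl ≤ gT k l ∧ cl ≤ gc k l) →
    (∀ l < r, Sc l → gT k l ≤ gT i₀ l + X ∧ g₀ k l + (A - w k) ≤ gT k l + X) →
    P + cl ≤ pp i₁ → P + cl ≤ gc k r → ∀ ω, B ω → ∀ x, ¬ Sc x →
    |hs (Ht i₁ (slam F (w i₁) ω)) (bt F ω) (bd F ω) (ev c r (mx Sc (kT w TH ω i₀) (gG G ω k)) x) -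
      ∑ s ∈ range r, wt Sc (fun s => cv (gG G ω k r - grd (Ht i₁ (slam F (w i₁) ω)) (bt F ω))
          (ev c r (mx Sc (kT w TH ω i₀) (gG G ω k)) s)) s *
        hs (TH i₀ (slam F (w i₀) ω) s) (bt F ω) (bd F ω)
          (ev c r (mx Sc (kT w TH ω i₀) (gG G ω k)) x)| ≤
      2 ^ (C * (cl + X + 1)) * (2 ^ A / 2 ^ P + 2 ^ w k / 2 ^ g₀ k r) * 2 ^ g₀ k x := by
  refine ⟨2 * exC r, by unfold exC; omega, ?_⟩
  intro m J F c D Dr N M A cl Sc w e h pp z g gc gT g₀ κ B G H T TH Gt Ht hE i₀ i₁ k P X hi hi₁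
    hk hw hw₁ h3 hst hP1 hP2 ω hω x hxs
  have h1 := ex_cev hE (X := 2 * X) hi hi₁ hk hw hw₁ (fun l hl hsc => by
    have := (hst l hl hsc).1
    omega) (fun l hl hsc => by
    have := hst l hl hsc
    omega) h3 hP1 hP2 hω hxs
  have e1 : ∑ s ∈ range r, wt Sc (fun s => cv (gG G ω k r - grd (Ht i₁ (slam F (w i₁) ω))
          (bt F ω)) (ev c r (mx Sc (kT w TH ω i₀) (gG G ω k)) s)) s *
        hs (TH i₀ (slam F (w i₀) ω) s) (bt F ω) (bd F ω)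
          (ev c r (mx Sc (kT w TH ω i₀) (gG G ω k)) x) =
      ∑ s ∈ range r, wt Sc (fun s => cv (grd (G k (ptr F J ω) r) (bt F ω) -
          grd (Ht i₁ (slam F (w i₁) ω)) (bt F ω)) (ev c r (mx Sc
          (fun l => grd (TH i₀ (slam F (w i₀) ω) l) (bt F ω))
          (fun l => grd (G k (ptr F J ω) l) (bt F ω))) s) *
        hs (TH i₀ (slam F (w i₀) ω) s) (bt F ω) (bd F ω) (ev c r (mx Sc
          (fun l => grd (TH i₀ (slam F (w i₀) ω) l) (bt F ω))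
          (fun l => grd (G k (ptr F J ω) l) (bt F ω))) x)) s := by
    refine Finset.sum_congr rfl fun s _ => ?_
    by_cases hsc : Sc s
    · rw [wt_pos hsc, wt_pos hsc]
      rfl
    · rw [wt_neg hsc, wt_neg hsc, zero_mul]
  rw [e1]
  refine h1.trans (mul_le_mul_of_nonneg_right (mul_le_mul_of_nonneg_right
    (pow_le_pow_right₀ (by norm_num) ?_) (by positivity)) (by positivity))
  nlinarith [Nat.zero_le (exC r * (cl + 1))]

end Pool.TN
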