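import Pool.Agent.H66.D2.Cev

/-!
# The row covector on the frame vectors of a static cell

`StaQ`: at the own exact point, charts `ψ l` of the static coordinates which are closed on the longest
window, against the thin chain and directly against the ball chart of the window `a`. `lift_q`,
`row_q`: as `lift_nat`, `row_cl` of H66/D2/Rcl, where the sides of the thin chain are not related to
the sides of the ball. `nat_q`: the vectors of the mixed frame are natural. `ex_q`, `ex_cev`: the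
second derivative of the row label in the direction of the own line and of a frame vector of a
rough coordinate.
-/

set_option autoImplicit false

namespace Pool.RCV

open Finset Real MvPolynomial
open Pool.Agent.H49.Ent Pool.Agent.H32.Dense Pool.STK Pool.KA Pool.KSAT Pool.K2S Pool.PB Pool.S6C
open Pool.GEN Pool.CHT Pool.CHX Pool.ISO Pool.D2R Pool.D2Z Pool.D2F
open Pool.PB.Trl (rt rt_mem t_rt)

variable {m J : ℕ}

/-- **The static charts** `ψ l`, `l ∈ Sc`, against the thin chain `TH` and against the ball chart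
`G`, at the point `x` and in the direction `W`; the other coordinates are rough. -/
structure StaQ (c : ℕ → Fin m) (r a A v' : ℕ) (g₀ gT : ℕ → ℕ) (Y : ℝ) (Sc : ℕ → Prop)
    (ψ : ℕ → MvPolynomial (Option (Fin m)) ℝ) (TH G : ℕ → MvPolynomial (Option (Fin m)) ℝ)
    (x W : Option (Fin m) → ℝ) : Prop where
  c1 : ∀ l < r, Sc l → ∀ V : Option (Fin m) → ℝ,
    |dd (ψ l) x V - dd (TH l) x V| ≤ Y / 2 ^ gT l * nrm c TH gT A l x V
  c2 : ∀ l < r, Sc l → ∀ V Z : Option (Fin m) → ℝ,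
    |hs (ψ l) x W V + dd (ψ l) x Z - (hs (TH l) x W V + dd (TH l) x Z)| ≤
      Y / 2 ^ gT l * (2 ^ a * nrm c TH gT A l x V + nrz c TH gT A l x W V Z)
  b1 : ∀ l < r, Sc l → ∀ V : Option (Fin m) → ℝ,
    |dd (ψ l) x V - dd (G l) x V| ≤ Y / 2 ^ (g₀ l + v') * nrm c TH gT A l x V +
      Y / 2 ^ g₀ l * nrm c G g₀ a l x V
  b2 : ∀ l < r, Sc l → ∀ V Z : Option (Fin m) → ℝ,
    |hs (ψ l) x W V + dd (ψ l) x Z - (hs (G l) x W V + dd (G l) x Z)| ≤
      Y / 2 ^ (g₀ l + v') * (2 ^ a * nrm c TH gT A l x V + nrz c TH gT A l x W V Z) +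
      Y / 2 ^ g₀ l * (nrm c G g₀ a l x W * nrm c G g₀ a l x V + nrz c G g₀ a l x W V Z)
  gr : ∀ l < r, ¬ Sc l → gT l ≤ g₀ l + v'

/-- **The lifts are natural** for the thin chain and for the ball chart. -/
theorem lift_q {F : Fam m J} {c : ℕ → Fin m} {r w a v p v' : ℕ} {g₀ gT : ℕ → ℕ} {U : ℝ}
    {B : F.Ω → Prop} {G₀ : PtT F → ℕ → MvPolynomial (Option (Fin m)) ℝ}
    {H₀ : LnT F → ℕ → MvPolynomial (Option (Fin m)) ℝ}
    {T : PtT F → ℕ → MvPolynomial (Option (Fin m)) ℝ}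
    {TH : LnT F → ℕ → MvPolynomial (Option (Fin m)) ℝ}
    {Ht : LnT F → MvPolynomial (Option (Fin m)) ℝ}
    (h : ROut1 F c r w a v g₀ gT p U B G₀ H₀ T TH Ht) (hU : 0 ≤ U) {Y X : ℝ} (hY : 2 ≤ Y)
    (hUY : U ≤ Y) (hrY : (r : ℝ) ≤ Y) (hv : v ≤ v') {Sc : ℕ → Prop}
    {ψ : ℕ → MvPolynomial (Option (Fin m)) ℝ} {ω : F.Ω} (hω : B ω)
    (hS : StaQ c r a (a + v) v' g₀ gT Y Sc ψ (TH (slam F a ω)) (G₀ (ptr F J ω)) (bt F ω)
      (bd F ω))
    (hT : ∀ l < r, ¬ Sc l → TH (slam F a ω) l = Hno (c l) (fun s => H₀ s l) (slam F a ω))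
    (hcur : ∀ l < r, ∀ V : Option (Fin m) → ℝ, |hs (G₀ (ptr F J ω) l) (bt F ω) (bd F ω) V| ≤
      Y * (2 ^ a / 2 ^ g₀ l) * nrm c (G₀ (ptr F J ω)) g₀ a l (bt F ω) V)
    {V Z : Option (Fin m) → ℝ} (hX : nrm c (G₀ (ptr F J ω)) g₀ a r (bt F ω) V ≤ X)
    (hV : ∀ l < r, Sc l → V (some (c l)) = dd (ψ l) (bt F ω) V) (hZ0 : Z none = 0)
    (hZ : ∀ l < r, Sc l → Z (some (c l)) = dd (ψ l) (bt F ω) Z + hs (ψ l) (bt F ω) (bd F ω) V)
    (hZr : ∀ l < r, ¬ Sc l → 2 ^ g₀ l * |Z (some (c l)) - dd (G₀ (ptr F J ω) l) (bt F ω) Z| ≤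
      Y * (2 ^ a * X)) :
    ∀ l ≤ r, nrm c (TH (slam F a ω)) gT (a + v) l (bt F ω) V ≤
        Y ^ ((2 * r + 10) * (l + 1)) * (2 ^ v' * X) ∧
      nrz c (TH (slam F a ω)) gT (a + v) l (bt F ω) (bd F ω) V Z ≤
        Y ^ ((2 * r + 10) * (l + 1)) * (2 ^ v' * (2 ^ a * X)) ∧
      nrz c (G₀ (ptr F J ω)) g₀ a l (bt F ω) (bd F ω) V Z ≤
        Y ^ ((2 * r + 10) * (l + 1)) * (2 ^ a * X) := by
  have hX0 : 0 ≤ X := (nrm_nonneg _ _ _ _ _ _ _).trans hX
  have hY0 : 0 < Y := by linarith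
  have hY1 : 1 ≤ Y := by linarith
  have hYm : ∀ i j, i ≤ j → Y ^ i ≤ Y ^ j := fun i j hij => pow_le_pow_right₀ hY1 hij
  have hr0 : (0 : ℝ) ≤ r := Nat.cast_nonneg r
  have h1U : 1 + U ≤ Y ^ 2 := by nlinarith
  have h1U0 : 0 ≤ 1 + U := by linarith
  have hWr : ∀ l ≤ r, nrm c (G₀ (ptr F J ω)) g₀ a l (bt F ω) (bd F ω) ≤ Y ^ 3 * 2 ^ a := by
    intro l hl
    refine (nrm_pre _ _ _ _ hl _ _).trans ((nrm_bd h hω).trans (mul_le_mul_of_nonneg_right ?_
      (by positivity)))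
    have : (r : ℝ) * U ≤ Y * Y := mul_le_mul hrY hUY hU hY0.le
    nlinarith [sq_nonneg (Y - 1)]
  have hXl : ∀ l ≤ r, nrm c (G₀ (ptr F J ω)) g₀ a l (bt F ω) V ≤ X := fun l hl =>
    (nrm_pre _ _ _ _ hl _ _).trans hX
  obtain ⟨E, hE⟩ : ∃ E, E = 2 * r + 10 := ⟨_, rfl⟩
  rw [← hE]
  have h2v : (0 : ℝ) < 2 ^ v' := by positivity
  have h2a : (0 : ℝ) < 2 ^ a := by positivity
  intro l
  induction l with
  | zero =>
    intro _
    have e1 : (1 : ℝ) ≤ Y ^ (E * (0 + 1)) := one_le_pow₀ hY1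
    refine ⟨?_, ?_, ?_⟩
    · have h1 : nrm c (TH (slam F a ω)) gT (a + v) 0 (bt F ω) V = 2 ^ v * (2 ^ a * |V none|) := by
        unfold nrm
        rw [Finset.sum_range_zero, add_zero, pow_add]
        ring
      have h2 : 2 ^ a * |V none| ≤ X := by
        have := hXl 0 (Nat.zero_le r)
        unfold nrm at this
        rwa [Finset.sum_range_zero, add_zero] at this
      rw [h1]
      calc (2 : ℝ) ^ v * (2 ^ a * |V none|) ≤ 2 ^ v' * X :=
            mul_le_mul (pow_le_pow_right₀ (by norm_num) hv) h2 (by positivity) (by positivity)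
        _ = 1 * (2 ^ v' * X) := (one_mul _).symm
        _ ≤ _ := mul_le_mul_of_nonneg_right e1 (by positivity)
    · unfold nrz
      rw [hZ0, abs_zero, mul_zero, Finset.sum_range_zero, add_zero]
      positivity
    · unfold nrz
      rw [hZ0, abs_zero, mul_zero, Finset.sum_range_zero, add_zero]
      positivity
  | succ l ih =>
    intro hl
    have hl' : l < r := hl
    obtain ⟨i1, i2, i3⟩ := ih hl'.le
    obtain ⟨K, hK⟩ : ∃ K, K = Y ^ (E * (l + 1)) := ⟨_, rfl⟩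
    rw [← hK] at i1 i2 i3
    have hK0 : 0 < K := by rw [hK]; positivity
    have hK1 : 1 ≤ K := by rw [hK]; exact one_le_pow₀ hY1
    have eK : Y ^ (E * (l + 1 + 1)) = Y ^ E * K := by
      rw [hK, ← pow_add]
      congr 1
      ring
    rw [eK]
    obtain ⟨n1, hn1⟩ : ∃ n1, n1 = nrm c (TH (slam F a ω)) gT (a + v) l (bt F ω) V := ⟨_, rfl⟩
    obtain ⟨z1, hz1⟩ : ∃ z1, z1 = nrz c (TH (slam F a ω)) gT (a + v) l (bt F ω) (bd F ω) V Z :=
      ⟨_, rfl⟩
    obtain ⟨z2, hz2⟩ : ∃ z2, z2 = nrz c (G₀ (ptr F J ω)) g₀ a l (bt F ω) (bd F ω) V Z :=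
      ⟨_, rfl⟩
    rw [nrm_succ, nrz_succ, nrz_succ, ← hn1, ← hz1, ← hz2]
    rw [← hn1] at i1
    rw [← hz1] at i2
    rw [← hz2] at i3
    have n0 : 0 ≤ n1 := by rw [hn1]; exact nrm_nonneg _ _ _ _ _ _ _
    have z0 : 0 ≤ z1 := by rw [hz1]; exact nrz_nonneg _ _ _ _ _ _ _ _ _
    have z0' : 0 ≤ z2 := by rw [hz2]; exact nrz_nonneg _ _ _ _ _ _ _ _ _
    have hkx : 0 ≤ K * X := by positivity
    -- the sums
    have hE3 : ∀ k : ℕ, k + 1 ≤ E → K + Y ^ k * K ≤ Y ^ E * K := by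
      intro k hk
      have h1 : 1 + Y ^ k ≤ Y ^ E := by
        have h2 : Y ^ (k + 1) ≤ Y ^ E := hYm _ _ hk
        have h3 : (1 : ℝ) ≤ Y ^ k := one_le_pow₀ hY1
        have h4 : 2 * Y ^ k ≤ Y ^ (k + 1) := by
          rw [pow_succ, mul_comm]
          exact mul_le_mul_of_nonneg_left hY (by positivity)
        linarith
      nlinarith
    have hcurl := hcur l hl' V
    have hcur' : 2 ^ g₀ l * |hs (G₀ (ptr F J ω) l) (bt F ω) (bd F ω) V| ≤ Y * (2 ^ a * X) := by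
      have h1 := hcurl.trans (mul_le_mul_of_nonneg_left (hXl l hl'.le) (by positivity))
      calc 2 ^ g₀ l * |hs (G₀ (ptr F J ω) l) (bt F ω) (bd F ω) V| ≤
            2 ^ g₀ l * (Y * (2 ^ a / 2 ^ g₀ l) * X) := mul_le_mul_of_nonneg_left h1 (by positivity)
        _ = _ := by field_simp
    by_cases hsc : Sc l
    · -- a static coordinate
      have s1 := hS.c1 l hl' hsc V
      have s2 := hS.c2 l hl' hsc V Z
      have s3 := hS.b2 l hl' hsc V Z
      rw [← hn1] at s1 s2 s3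
      rw [← hz1] at s2 s3
      rw [← hz2] at s3
      have hv1 := hV l hl' hsc
      have hz1' := hZ l hl' hsc
      have t1 : 2 ^ gT l * |V (some (c l)) - dd (TH (slam F a ω) l) (bt F ω) V| ≤ Y * n1 := by
        rw [hv1]
        calc 2 ^ gT l * |dd (ψ l) (bt F ω) V - dd (TH (slam F a ω) l) (bt F ω) V| ≤
              2 ^ gT l * (Y / 2 ^ gT l * n1) := mul_le_mul_of_nonneg_left s1 (by positivity)
          _ = _ := by field_simp
      have t2 : 2 ^ gT l * |Z (some (c l)) - dd (TH (slam F a ω) l) (bt F ω) Z -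
          hs (TH (slam F a ω) l) (bt F ω) (bd F ω) V| ≤ Y * (2 ^ a * n1 + z1) := by
        rw [hz1']
        have e1 : dd (ψ l) (bt F ω) Z + hs (ψ l) (bt F ω) (bd F ω) V -
            dd (TH (slam F a ω) l) (bt F ω) Z - hs (TH (slam F a ω) l) (bt F ω) (bd F ω) V =
            hs (ψ l) (bt F ω) (bd F ω) V + dd (ψ l) (bt F ω) Z -
            (hs (TH (slam F a ω) l) (bt F ω) (bd F ω) V + dd (TH (slam F a ω) l) (bt F ω) Z) := by
          ring
        rw [e1]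
        calc _ ≤ 2 ^ gT l * (Y / 2 ^ gT l * (2 ^ a * n1 + z1)) :=
              mul_le_mul_of_nonneg_left s2 (by positivity)
          _ = _ := by field_simp
      have t3 : 2 ^ g₀ l * |Z (some (c l)) - dd (G₀ (ptr F J ω) l) (bt F ω) Z -
          hs (G₀ (ptr F J ω) l) (bt F ω) (bd F ω) V| ≤
          2 * Y / 2 ^ v' * (2 ^ a * n1 + z1) + Y * (Y ^ 3 * 2 ^ a * X + z2) := by
        rw [hz1']
        have e1 : dd (ψ l) (bt F ω) Z + hs (ψ l) (bt F ω) (bd F ω) V -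
            dd (G₀ (ptr F J ω) l) (bt F ω) Z - hs (G₀ (ptr F J ω) l) (bt F ω) (bd F ω) V =
            hs (ψ l) (bt F ω) (bd F ω) V + dd (ψ l) (bt F ω) Z -
            (hs (G₀ (ptr F J ω) l) (bt F ω) (bd F ω) V + dd (G₀ (ptr F J ω) l) (bt F ω) Z) := by
          ring
        rw [e1]
        have h1 : nrm c (G₀ (ptr F J ω)) g₀ a l (bt F ω) (bd F ω) *
            nrm c (G₀ (ptr F J ω)) g₀ a l (bt F ω) V ≤ Y ^ 3 * 2 ^ a * X :=
          mul_le_mul (hWr l hl'.le) (hXl l hl'.le) (nrm_nonneg _ _ _ _ _ _ _) (by positivity)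
        have h2 : 0 ≤ 2 ^ a * n1 + z1 := by positivity
        have h4 := s3.trans (add_le_add le_rfl
          (mul_le_mul_of_nonneg_left (add_le_add h1 (le_refl z2)) (by positivity)))
        refine (mul_le_mul_of_nonneg_left h4 (show (0 : ℝ) ≤ 2 ^ g₀ l by positivity)).trans ?_
        have e2 : 2 ^ g₀ l * (Y / 2 ^ (g₀ l + v') * (2 ^ a * n1 + z1) +
            Y / 2 ^ g₀ l * (Y ^ 3 * 2 ^ a * X + z2)) =
            Y / 2 ^ v' * (2 ^ a * n1 + z1) + Y * (Y ^ 3 * 2 ^ a * X + z2) := by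
          rw [pow_add]
          field_simp
        rw [e2]
        refine add_le_add (mul_le_mul_of_nonneg_right (div_le_div_of_nonneg_right ?_ h2v.le) h2)
          le_rfl
        linarith
      refine ⟨?_, ?_, ?_⟩
      · calc n1 + 2 ^ gT l * |V (some (c l)) - dd (TH (slam F a ω) l) (bt F ω) V| ≤
              n1 + Y * n1 := by linarith
          _ = (1 + Y) * n1 := by ring
          _ ≤ (1 + Y) * (K * (2 ^ v' * X)) := mul_le_mul_of_nonneg_left i1 (by linarith)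
          _ = (K + Y ^ 1 * K) * (2 ^ v' * X) := by ring
          _ ≤ _ := mul_le_mul_of_nonneg_right (hE3 1 (by omega)) (by positivity)
      · have h1 : 2 ^ a * n1 + z1 ≤ 2 * (K * (2 ^ v' * (2 ^ a * X))) := by
          have := mul_le_mul_of_nonneg_left i1 h2a.le
          have e1 : (2 : ℝ) ^ a * (K * (2 ^ v' * X)) = K * (2 ^ v' * (2 ^ a * X)) := by ring
          linarith
        calc _ ≤ z1 + Y * (2 ^ a * n1 + z1) := by linarith
          _ ≤ K * (2 ^ v' * (2 ^ a * X)) + Y * (2 * (K * (2 ^ v' * (2 ^ a * X)))) :=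
              add_le_add i2 (mul_le_mul_of_nonneg_left h1 hY0.le)
          _ = (K + Y * 2 * K) * (2 ^ v' * (2 ^ a * X)) := by ring
          _ ≤ (K + Y ^ 2 * K) * (2 ^ v' * (2 ^ a * X)) := by
              refine mul_le_mul_of_nonneg_right ?_ (by positivity)
              have : Y * 2 ≤ Y ^ 2 := by nlinarith
              nlinarith
          _ ≤ _ := mul_le_mul_of_nonneg_right (hE3 2 (by omega)) (by positivity)
      · have h1 : 2 ^ a * n1 + z1 ≤ 2 ^ v' * (2 * (K * (2 ^ a * X))) := by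
          have := mul_le_mul_of_nonneg_left i1 h2a.le
          have e1 : (2 : ℝ) ^ a * (K * (2 ^ v' * X)) = K * (2 ^ v' * (2 ^ a * X)) := by ring
          have e2 : (2 : ℝ) ^ v' * (2 * (K * (2 ^ a * X))) = 2 * (K * (2 ^ v' * (2 ^ a * X))) := by
            ring
          linarith
        have h2 : 2 * Y / 2 ^ v' * (2 ^ a * n1 + z1) ≤ 4 * Y * (K * (2 ^ a * X)) := by
          calc 2 * Y / 2 ^ v' * (2 ^ a * n1 + z1) ≤
                2 * Y / 2 ^ v' * (2 ^ v' * (2 * (K * (2 ^ a * X)))) :=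
                mul_le_mul_of_nonneg_left h1 (by positivity)
            _ = _ := by field_simp; ring
        calc _ ≤ z2 + (4 * Y * (K * (2 ^ a * X)) + Y * (Y ^ 3 * 2 ^ a * X + z2)) := by linarith
          _ ≤ K * (2 ^ a * X) + (4 * Y * (K * (2 ^ a * X)) +
              Y * (Y ^ 3 * (K * (2 ^ a * X)) + K * (2 ^ a * X))) := by
              refine add_le_add i3 (add_le_add le_rfl (mul_le_mul_of_nonneg_left
                (add_le_add ?_ i3) hY0.le))
              have : (1 : ℝ) * (2 ^ a * X) ≤ K * (2 ^ a * X) :=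
                mul_le_mul_of_nonneg_right hK1 (by positivity)
              have h3 : 0 ≤ Y ^ 3 := by positivity
              nlinarith
          _ = (K + (5 * Y + Y ^ 4) * K) * (2 ^ a * X) := by ring
          _ ≤ (K + Y ^ 5 * K) * (2 ^ a * X) := by
              refine mul_le_mul_of_nonneg_right ?_ (by positivity)
              have h3 : 8 ≤ Y ^ 3 := by
                calc (8 : ℝ) = 2 ^ 3 := by norm_num
                  _ ≤ Y ^ 3 := pow_le_pow_left₀ (by norm_num) hY 3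
              have h4 : 5 * Y + Y ^ 4 ≤ Y ^ 5 := by
                have e1 : 5 * Y + Y ^ 4 = Y * (5 + Y ^ 3) := by ring
                have e2 : Y ^ 5 = Y * (Y * Y ^ 3) := by ring
                rw [e1, e2]
                refine mul_le_mul_of_nonneg_left ?_ hY0.le
                have h5 : 2 * Y ^ 3 ≤ Y * Y ^ 3 := mul_le_mul_of_nonneg_right hY (by positivity)
                linarith
              have h6 := mul_le_mul_of_nonneg_right h4 hK0.le
              linarith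
          _ ≤ _ := mul_le_mul_of_nonneg_right (hE3 5 (by omega)) (by positivity)
    · -- a rough coordinate
      have hTl := hT l hl' hsc
      have hg := hS.gr l hl' hsc
      have hgp : (2 : ℝ) ^ gT l ≤ 2 ^ g₀ l * 2 ^ v' := by
        rw [← pow_add]
        exact pow_le_pow_right₀ (by norm_num) hg
      have d1 := h.dif ω hω l hl'.le
      have hn : nrm c (G₀ (ptr F J ω)) g₀ a (l + 1) (bt F ω) V ≤ X := hXl (l + 1) hl
      rw [nrm_succ] at hn
      have hn' : 2 ^ g₀ l * |V (some (c l)) - dd (G₀ (ptr F J ω) l) (bt F ω) V| ≤ X := by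
        have := nrm_nonneg c (G₀ (ptr F J ω)) g₀ a l (bt F ω) V
        linarith
      have t1 : 2 ^ g₀ l * |V (some (c l)) - dd (TH (slam F a ω) l) (bt F ω) V| ≤
          X + Y * X := by
        have h1 := d1.1 V
        rw [dd_sub, ← hTl] at h1
        have h2 : 2 ^ g₀ l * |dd (TH (slam F a ω) l) (bt F ω) V -
            dd (G₀ (ptr F J ω) l) (bt F ω) V| ≤ Y * X := by
          calc _ ≤ 2 ^ g₀ l * (U / 2 ^ g₀ l * nrm c (G₀ (ptr F J ω)) g₀ a l (bt F ω) V) :=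
                mul_le_mul_of_nonneg_left h1 (by positivity)
            _ = U * nrm c (G₀ (ptr F J ω)) g₀ a l (bt F ω) V := by field_simp
            _ ≤ Y * X := mul_le_mul hUY (hXl l hl'.le) (nrm_nonneg _ _ _ _ _ _ _) hY0.le
        have e1 : V (some (c l)) - dd (TH (slam F a ω) l) (bt F ω) V =
            (V (some (c l)) - dd (G₀ (ptr F J ω) l) (bt F ω) V) -
            (dd (TH (slam F a ω) l) (bt F ω) V - dd (G₀ (ptr F J ω) l) (bt F ω) V) := by ring
        rw [e1]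
        refine (mul_le_mul_of_nonneg_left (abs_sub _ _) (by positivity)).trans ?_
        rw [mul_add]
        exact add_le_add hn' h2
      have hzr := hZr l hl' hsc
      have t3 : 2 ^ g₀ l * |Z (some (c l)) - dd (G₀ (ptr F J ω) l) (bt F ω) Z -
          hs (G₀ (ptr F J ω) l) (bt F ω) (bd F ω) V| ≤ 2 * Y * (2 ^ a * X) := by
        refine (mul_le_mul_of_nonneg_left (abs_sub _ _) (by positivity)).trans ?_
        rw [mul_add]
        linarith
      have t2 : 2 ^ g₀ l * |Z (some (c l)) - dd (TH (slam F a ω) l) (bt F ω) Z -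
          hs (TH (slam F a ω) l) (bt F ω) (bd F ω) V| ≤
          2 * Y * (2 ^ a * X) + Y * (Y ^ 3 * 2 ^ a * X + z2) := by
        have h1 := d1.2 (bd F ω) V Z
        rw [dd_sub, hs_sub, ← hTl, ← hz2] at h1
        have h2 : nrm c (G₀ (ptr F J ω)) g₀ a l (bt F ω) (bd F ω) *
            nrm c (G₀ (ptr F J ω)) g₀ a l (bt F ω) V ≤ Y ^ 3 * 2 ^ a * X :=
          mul_le_mul (hWr l hl'.le) (hXl l hl'.le) (nrm_nonneg _ _ _ _ _ _ _) (by positivity)
        have e1 : Z (some (c l)) - dd (TH (slam F a ω) l) (bt F ω) Z -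
            hs (TH (slam F a ω) l) (bt F ω) (bd F ω) V =
            (Z (some (c l)) - dd (G₀ (ptr F J ω) l) (bt F ω) Z -
            hs (G₀ (ptr F J ω) l) (bt F ω) (bd F ω) V) -
            (hs (TH (slam F a ω) l) (bt F ω) (bd F ω) V - hs (G₀ (ptr F J ω) l) (bt F ω)
              (bd F ω) V + (dd (TH (slam F a ω) l) (bt F ω) Z -
              dd (G₀ (ptr F J ω) l) (bt F ω) Z)) := by ring
        rw [e1]
        refine (mul_le_mul_of_nonneg_left (abs_sub _ _) (by positivity)).trans ?_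
        rw [mul_add]
        refine add_le_add t3 ?_
        calc _ ≤ 2 ^ g₀ l * (U / 2 ^ g₀ l * (Y ^ 3 * 2 ^ a * X + z2)) :=
              mul_le_mul_of_nonneg_left (h1.trans (mul_le_mul_of_nonneg_left
                (add_le_add h2 le_rfl) (by positivity))) (by positivity)
          _ = U * (Y ^ 3 * 2 ^ a * X + z2) := by field_simp
          _ ≤ _ := mul_le_mul_of_nonneg_right hUY (by positivity)
      have hup : ∀ s t : ℝ, 2 ^ g₀ l * |s| ≤ t → 2 ^ gT l * |s| ≤ 2 ^ v' * t := by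
        intro s t hst
        calc (2 : ℝ) ^ gT l * |s| ≤ 2 ^ g₀ l * 2 ^ v' * |s| :=
              mul_le_mul_of_nonneg_right hgp (abs_nonneg _)
          _ = 2 ^ v' * (2 ^ g₀ l * |s|) := by ring
          _ ≤ _ := mul_le_mul_of_nonneg_left hst h2v.le
      have hKX : X ≤ K * X := le_mul_of_one_le_left hX0 hK1
      have hzz : Y * (Y ^ 3 * 2 ^ a * X + z2) ≤ (Y ^ 4 + Y) * (K * (2 ^ a * X)) := by
        have h1 : Y ^ 3 * 2 ^ a * X ≤ Y ^ 3 * (K * (2 ^ a * X)) := by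
          have : 2 ^ a * X ≤ K * (2 ^ a * X) := le_mul_of_one_le_left (by positivity) hK1
          calc Y ^ 3 * 2 ^ a * X = Y ^ 3 * (2 ^ a * X) := by ring
            _ ≤ _ := mul_le_mul_of_nonneg_left this (by positivity)
        calc Y * (Y ^ 3 * 2 ^ a * X + z2) ≤ Y * (Y ^ 3 * (K * (2 ^ a * X)) +
              K * (2 ^ a * X)) := mul_le_mul_of_nonneg_left (add_le_add h1 i3) hY0.le
          _ = _ := by ring
      have h2YX : 2 * Y * (2 ^ a * X) ≤ 2 * Y * (K * (2 ^ a * X)) :=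
        mul_le_mul_of_nonneg_left (le_mul_of_one_le_left (by positivity) hK1) (by linarith)
      have hpoly : 2 * Y + (Y ^ 4 + Y) ≤ Y ^ 5 := by
        have h3 : 8 ≤ Y ^ 3 := by
          calc (8 : ℝ) = 2 ^ 3 := by norm_num
            _ ≤ Y ^ 3 := pow_le_pow_left₀ (by norm_num) hY 3
        have e1 : 2 * Y + (Y ^ 4 + Y) = Y * (3 + Y ^ 3) := by ring
        have e2 : Y ^ 5 = Y * (Y * Y ^ 3) := by ring
        rw [e1, e2]
        refine mul_le_mul_of_nonneg_left ?_ hY0.le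
        have h5 : 2 * Y ^ 3 ≤ Y * Y ^ 3 := mul_le_mul_of_nonneg_right hY (by positivity)
        linarith
      refine ⟨?_, ?_, ?_⟩
      · calc n1 + 2 ^ gT l * |V (some (c l)) - dd (TH (slam F a ω) l) (bt F ω) V| ≤
              n1 + 2 ^ v' * (X + Y * X) := add_le_add le_rfl (hup _ _ t1)
          _ ≤ K * (2 ^ v' * X) + 2 ^ v' * ((1 + Y) * (K * X)) := by
              refine add_le_add i1 (mul_le_mul_of_nonneg_left ?_ h2v.le)
              have : X + Y * X = (1 + Y) * X := by ring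
              rw [this]
              exact mul_le_mul_of_nonneg_left hKX (by linarith)
          _ = (K + (1 + Y) * K) * (2 ^ v' * X) := by ring
          _ ≤ (K + Y ^ 2 * K) * (2 ^ v' * X) := by
              refine mul_le_mul_of_nonneg_right ?_ (by positivity)
              have : 1 + Y ≤ Y ^ 2 := by nlinarith
              nlinarith
          _ ≤ _ := mul_le_mul_of_nonneg_right (hE3 2 (by omega)) (by positivity)
      · calc _ ≤ z1 + 2 ^ v' * (2 * Y * (2 ^ a * X) + Y * (Y ^ 3 * 2 ^ a * X + z2)) :=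
              add_le_add le_rfl (hup _ _ t2)
          _ ≤ K * (2 ^ v' * (2 ^ a * X)) + 2 ^ v' * (2 * Y * (K * (2 ^ a * X)) +
              (Y ^ 4 + Y) * (K * (2 ^ a * X))) := add_le_add i2
                (mul_le_mul_of_nonneg_left (add_le_add h2YX hzz) h2v.le)
          _ = (K + (2 * Y + (Y ^ 4 + Y)) * K) * (2 ^ v' * (2 ^ a * X)) := by ring
          _ ≤ (K + Y ^ 5 * K) * (2 ^ v' * (2 ^ a * X)) := by
              refine mul_le_mul_of_nonneg_right ?_ (by positivity)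
              have := mul_le_mul_of_nonneg_right hpoly hK0.le
              linarith
          _ ≤ _ := mul_le_mul_of_nonneg_right (hE3 5 (by omega)) (by positivity)
      · calc _ ≤ z2 + 2 * Y * (2 ^ a * X) := add_le_add le_rfl t3
          _ ≤ K * (2 ^ a * X) + 2 * Y * (K * (2 ^ a * X)) := add_le_add i3 h2YX
          _ = (K + 2 * Y * K) * (2 ^ a * X) := by ring
          _ ≤ (K + Y ^ 2 * K) * (2 ^ a * X) := by
              refine mul_le_mul_of_nonneg_right ?_ (by positivity)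
              have : 2 * Y ≤ Y ^ 2 := by nlinarith
              nlinarith
          _ ≤ _ := mul_le_mul_of_nonneg_right (hE3 2 (by omega)) (by positivity)

/-- **The row covector over closed static charts.** -/
theorem row_q {F : Fam m J} {c : ℕ → Fin m} {r w a v p v' : ℕ} {g₀ gT : ℕ → ℕ} {U : ℝ}
    {B : F.Ω → Prop} {G₀ : PtT F → ℕ → MvPolynomial (Option (Fin m)) ℝ}
    {H₀ : LnT F → ℕ → MvPolynomial (Option (Fin m)) ℝ}
    {T : PtT F → ℕ → MvPolynomial (Option (Fin m)) ℝ}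
    {TH : LnT F → ℕ → MvPolynomial (Option (Fin m)) ℝ}
    {Ht : LnT F → MvPolynomial (Option (Fin m)) ℝ}
    (h : ROut1 F c r w a v g₀ gT p U B G₀ H₀ T TH Ht) (ha : a ≤ J) (hU : 0 ≤ U) {Y X : ℝ}
    (hY : 2 ≤ Y) (hUY : U ≤ Y) (hrY : (r : ℝ) ≤ Y) (hv : v ≤ v') {Sc : ℕ → Prop}
    {ψ : ℕ → MvPolynomial (Option (Fin m)) ℝ} {ω : F.Ω} (hω : B ω)
    (hS : StaQ c r a (a + v) v' g₀ gT Y Sc ψ (TH (slam F a ω)) (G₀ (ptr F J ω)) (bt F ω)
      (bd F ω))
    (hT : ∀ l < r, ¬ Sc l → TH (slam F a ω) l = Hno (c l) (fun s => H₀ s l) (slam F a ω))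
    (hcur : ∀ l ≤ r, ∀ V : Option (Fin m) → ℝ, |hs (G₀ (ptr F J ω) l) (bt F ω) (bd F ω) V| ≤
      Y * (2 ^ a / 2 ^ g₀ l) * nrm c (G₀ (ptr F J ω)) g₀ a l (bt F ω) V)
    {V Z : Option (Fin m) → ℝ} (hX : nrm c (G₀ (ptr F J ω)) g₀ a r (bt F ω) V ≤ X)
    (hV : ∀ l < r, Sc l → V (some (c l)) = dd (ψ l) (bt F ω) V) (hZ0 : Z none = 0)
    (hZ : ∀ l < r, Sc l → Z (some (c l)) = dd (ψ l) (bt F ω) Z + hs (ψ l) (bt F ω) (bd F ω) V)
    (hZr : ∀ l < r, ¬ Sc l → 2 ^ g₀ l * |Z (some (c l)) - dd (G₀ (ptr F J ω) l) (bt F ω) Z| ≤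
      Y * (2 ^ a * X)) :
    |hs (Ht (slam F w ω)) (bt F ω) (bd F ω) V + dd (Ht (slam F w ω)) (bt F ω) Z -
      dd (G₀ (ptr F J ω) r) (bt F ω) Z| ≤
      Y ^ ((2 * r + 10) * (r + 1) + 10) * (2 ^ (a + v') / 2 ^ p + 2 ^ a / 2 ^ g₀ r) * X := by
  have hX0 : 0 ≤ X := (nrm_nonneg _ _ _ _ _ _ _).trans hX
  have hY0 : 0 < Y := by linarith
  have hY1 : 1 ≤ Y := by linarith
  obtain ⟨l1, l2, l3⟩ := lift_q h hU hY hUY hrY hv hω hS hT (fun l hl => hcur l hl.le) hX hV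
    hZ0 hZ hZr r le_rfl
  obtain ⟨K, hK⟩ : ∃ K, K = Y ^ ((2 * r + 10) * (r + 1)) := ⟨_, rfl⟩
  rw [← hK] at l1 l2 l3
  have hK1 : 1 ≤ K := by rw [hK]; exact one_le_pow₀ hY1
  have hKY : Y ≤ K := by
    rw [hK]
    calc Y = Y ^ 1 := (pow_one Y).symm
      _ ≤ _ := pow_le_pow_right₀ hY1 (by nlinarith)
  have h1 := row_cov (K := K) h ha hU hω (V := V) (Z := Z) (v' := v') (X := X) hX
    (by linarith [l1]) (by linarith [l2]) l3 ((hcur r le_rfl V).trans (by
      refine mul_le_mul (mul_le_mul_of_nonneg_right hKY (by positivity)) hX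
        (nrm_nonneg _ _ _ _ _ _ _) (by positivity)))
  refine h1.trans (mul_le_mul_of_nonneg_right ?_ hX0)
  rw [pow_add Y, ← hK]
  have hr0 : (0 : ℝ) ≤ r := Nat.cast_nonneg r
  obtain ⟨f1, hf1⟩ : ∃ f1 : ℝ, f1 = 2 ^ (a + v') / 2 ^ p := ⟨_, rfl⟩
  obtain ⟨f2, hf2⟩ : ∃ f2 : ℝ, f2 = 2 ^ a / 2 ^ g₀ r := ⟨_, rfl⟩
  have f10 : 0 ≤ f1 := by rw [hf1]; positivity
  have f20 : 0 ≤ f2 := by rw [hf2]; positivity
  rw [← hf1, ← hf2]
  have h2 : 2 * U * K ≤ K * Y ^ 10 := by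
    have e1 : 2 * U ≤ Y ^ 2 := by nlinarith
    have e2 : Y ^ 2 ≤ Y ^ 10 := pow_le_pow_right₀ hY1 (by norm_num)
    nlinarith
  have h3 : U * (1 + r * U + K) + K ≤ K * Y ^ 10 := by
    have e1 : r * U ≤ Y * Y := mul_le_mul hrY hUY hU hY0.le
    have e2 : 1 + r * U + K ≤ 3 * (Y ^ 2 * K) := by
      have e3 : 1 ≤ Y ^ 2 * K := one_le_mul_of_one_le_of_one_le (one_le_pow₀ hY1) hK1
      have e4 : Y * Y ≤ Y ^ 2 * K := by
        have : Y * Y = Y ^ 2 * 1 := by ring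
        rw [this]
        exact mul_le_mul_of_nonneg_left hK1 (by positivity)
      have e5 : K ≤ Y ^ 2 * K := le_mul_of_one_le_left (by linarith) (one_le_pow₀ hY1)
      linarith
    have e6 : U * (1 + r * U + K) ≤ Y * (3 * (Y ^ 2 * K)) :=
      mul_le_mul hUY e2 (by positivity) hY0.le
    have e7 : Y * (3 * (Y ^ 2 * K)) + K ≤ K * Y ^ 5 := by
      have e8 : 4 ≤ Y ^ 2 := by nlinarith
      have e9 : 3 * Y ^ 3 + 1 ≤ Y ^ 5 := by
        have a1 : Y ^ 5 = Y ^ 2 * Y ^ 3 := by ring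
        have a2 : (1 : ℝ) ≤ Y ^ 3 := one_le_pow₀ hY1
        rw [a1]
        nlinarith
      nlinarith
    have e10 : K * Y ^ 5 ≤ K * Y ^ 10 := mul_le_mul_of_nonneg_left
      (pow_le_pow_right₀ hY1 (by norm_num)) (by linarith)
    linarith
  nlinarith [mul_le_mul_of_nonneg_right h2 f10, mul_le_mul_of_nonneg_right h3 f20]

/-- **Vectors which are natural for the mixed frame** are natural for the thin chain and for the ball
chart. -/
theorem nat_q {c : ℕ → Fin m} {r a A v' : ℕ} {g₀ gT : ℕ → ℕ} {Y : ℝ} {Sc : ℕ → Prop}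
    {ψ : ℕ → MvPolynomial (Option (Fin m)) ℝ} {TH G : ℕ → MvPolynomial (Option (Fin m)) ℝ}
    {x W : Option (Fin m) → ℝ} (hS : StaQ c r a A v' g₀ gT Y Sc ψ TH G x W) (hY : 2 ≤ Y)
    (hd : ∀ l < r, ¬ Sc l → ∀ V : Option (Fin m) → ℝ,
      |dd (TH l) x V - dd (G l) x V| ≤ Y / 2 ^ g₀ l * nrm c G g₀ a l x V)
    {V : Option (Fin m) → ℝ} {X : ℝ} (hX : 0 ≤ X) (h0 : V none = 0)
    (hV : ∀ l < r, Sc l → V (some (c l)) = dd (ψ l) x V)
    (hVr : ∀ l < r, ¬ Sc l → 2 ^ g₀ l * |V (some (c l)) - dd (G l) x V| ≤ X) :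
    ∀ l ≤ r, nrm c G g₀ a l x V ≤ Y ^ (3 * l) * X ∧
      nrm c TH gT A l x V ≤ Y ^ (3 * l) * (2 ^ v' * X) := by
  have hY0 : 0 < Y := by linarith
  have hY1 : 1 ≤ Y := by linarith
  have h2v : (0 : ℝ) < 2 ^ v' := by positivity
  have hY3 : Y ^ 3 = Y * (Y * Y) := by ring
  have hYY : 2 * Y ≤ Y * Y := mul_le_mul_of_nonneg_right hY hY0.le
  have hYYY : 2 * (Y * Y) ≤ Y ^ 3 := by
    rw [hY3]
    exact mul_le_mul_of_nonneg_right hY (by positivity)
  have c1 : 1 + 2 * Y ≤ Y ^ 3 := by linarith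
  intro l
  induction l with
  | zero =>
    intro _
    have e1 : ∀ (χ : ℕ → MvPolynomial (Option (Fin m)) ℝ) (g : ℕ → ℕ) (b : ℕ),
        nrm c χ g b 0 x V = 0 := by
      intro χ g b
      unfold nrm
      rw [h0, abs_zero, mul_zero, Finset.sum_range_zero, add_zero]
    rw [e1, e1]
    exact ⟨by positivity, by positivity⟩
  | succ l ih =>
    intro hl
    have hl' : l < r := hl
    obtain ⟨i1, i2⟩ := ih hl'.le
    obtain ⟨K, hK⟩ : ∃ K, K = Y ^ (3 * l) := ⟨_, rfl⟩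
    rw [← hK] at i1 i2
    have hK0 : 0 < K := by rw [hK]; positivity
    have hK1 : 1 ≤ K := by rw [hK]; exact one_le_pow₀ hY1
    have eK : Y ^ (3 * (l + 1)) = Y ^ 3 * K := by
      rw [hK, ← pow_add]
      congr 1
      ring
    rw [eK, nrm_succ, nrm_succ]
    obtain ⟨n1, hn1⟩ : ∃ n1, n1 = nrm c G g₀ a l x V := ⟨_, rfl⟩
    obtain ⟨n2, hn2⟩ : ∃ n2, n2 = nrm c TH gT A l x V := ⟨_, rfl⟩
    rw [← hn1, ← hn2]
    rw [← hn1] at i1
    rw [← hn2] at i2
    have n10 : 0 ≤ n1 := by rw [hn1]; exact nrm_nonneg _ _ _ _ _ _ _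
    have n20 : 0 ≤ n2 := by rw [hn2]; exact nrm_nonneg _ _ _ _ _ _ _
    have hKX : X ≤ K * X := le_mul_of_one_le_left hX hK1
    by_cases hsc : Sc l
    · have s1 := hS.c1 l hl' hsc V
      have s2 := hS.b1 l hl' hsc V
      rw [← hn2] at s1
      rw [← hn1, ← hn2] at s2
      have hv1 := hV l hl' hsc
      have t1 : 2 ^ g₀ l * |V (some (c l)) - dd (G l) x V| ≤ Y / 2 ^ v' * n2 + Y * n1 := by
        rw [hv1]
        refine (mul_le_mul_of_nonneg_left s2 (by positivity)).trans (le_of_eq ?_)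
        rw [pow_add]
        field_simp
      have t2 : 2 ^ gT l * |V (some (c l)) - dd (TH l) x V| ≤ Y * n2 := by
        rw [hv1]
        refine (mul_le_mul_of_nonneg_left s1 (by positivity)).trans (le_of_eq ?_)
        field_simp
      have t3 : Y / 2 ^ v' * n2 ≤ Y * (K * X) := by
        calc Y / 2 ^ v' * n2 ≤ Y / 2 ^ v' * (K * (2 ^ v' * X)) :=
              mul_le_mul_of_nonneg_left i2 (by positivity)
          _ = _ := by field_simp
      have hKX0 : 0 ≤ K * X := by positivity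
      constructor
      · have h1 : n1 + (Y / 2 ^ v' * n2 + Y * n1) ≤ (1 + 2 * Y) * (K * X) := by
          have h2 := mul_le_mul_of_nonneg_left i1 hY0.le
          have h3 : (1 + 2 * Y) * (K * X) = K * X + Y * (K * X) + Y * (K * X) := by ring
          rw [h3]
          linarith
        calc n1 + 2 ^ g₀ l * |V (some (c l)) - dd (G l) x V| ≤
              n1 + (Y / 2 ^ v' * n2 + Y * n1) := by linarith
          _ ≤ (1 + 2 * Y) * (K * X) := h1
          _ ≤ Y ^ 3 * (K * X) := mul_le_mul_of_nonneg_right c1 hKX0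
          _ = _ := by ring
      · calc n2 + 2 ^ gT l * |V (some (c l)) - dd (TH l) x V| ≤ n2 + Y * n2 := by linarith
          _ = (1 + Y) * n2 := by ring
          _ ≤ Y ^ 3 * (K * (2 ^ v' * X)) := mul_le_mul (by linarith) i2 n20 (by positivity)
          _ = _ := by ring
    · have hg := hS.gr l hl' hsc
      have hr := hVr l hl' hsc
      have s1 := hd l hl' hsc V
      rw [← hn1] at s1
      have t1 : 2 ^ g₀ l * |V (some (c l)) - dd (TH l) x V| ≤ X + Y * n1 := by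
        have e1 : V (some (c l)) - dd (TH l) x V = (V (some (c l)) - dd (G l) x V) -
            (dd (TH l) x V - dd (G l) x V) := by ring
        rw [e1]
        have h1 : 2 ^ g₀ l * |dd (TH l) x V - dd (G l) x V| ≤ Y * n1 := by
          refine (mul_le_mul_of_nonneg_left s1 (by positivity)).trans (le_of_eq ?_)
          field_simp
        refine (mul_le_mul_of_nonneg_left (abs_sub _ _) (by positivity)).trans ?_
        rw [mul_add]
        exact add_le_add hr h1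
      have t2 : 2 ^ gT l * |V (some (c l)) - dd (TH l) x V| ≤ 2 ^ v' * (X + Y * n1) := by
        calc (2 : ℝ) ^ gT l * |V (some (c l)) - dd (TH l) x V| ≤
              2 ^ (g₀ l + v') * |V (some (c l)) - dd (TH l) x V| :=
              mul_le_mul_of_nonneg_right (pow_le_pow_right₀ (by norm_num) hg) (abs_nonneg _)
          _ = 2 ^ v' * (2 ^ g₀ l * |V (some (c l)) - dd (TH l) x V|) := by
              rw [pow_add]
              ring
          _ ≤ _ := mul_le_mul_of_nonneg_left t1 h2v.le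
      have hKX0 : 0 ≤ K * X := by positivity
      have c2 : 2 + Y ≤ Y ^ 3 := by linarith
      constructor
      · calc n1 + 2 ^ g₀ l * |V (some (c l)) - dd (G l) x V| ≤ K * X + K * X := by linarith
          _ = 2 * (K * X) := by ring
          _ ≤ Y ^ 3 * (K * X) := mul_le_mul_of_nonneg_right (by linarith) hKX0
          _ = _ := by ring
      · have h1 : X + Y * n1 ≤ (1 + Y) * (K * X) := by
          have h2 := mul_le_mul_of_nonneg_left i1 hY0.le
          have h3 : (1 + Y) * (K * X) = K * X + Y * (K * X) := by ring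
          rw [h3]
          linarith
        calc n2 + 2 ^ gT l * |V (some (c l)) - dd (TH l) x V| ≤
              K * (2 ^ v' * X) + 2 ^ v' * ((1 + Y) * (K * X)) :=
              add_le_add i2 (t2.trans (mul_le_mul_of_nonneg_left h1 h2v.le))
          _ = (2 + Y) * (K * (2 ^ v' * X)) := by ring
          _ ≤ Y ^ 3 * (K * (2 ^ v' * X)) := mul_le_mul_of_nonneg_right c2 (by positivity)
          _ = _ := by ring

end Pool.RCV

namespace Pool.TN

open Finset Real MvPolynomial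
open Pool.Agent.H49.Ent Pool.Agent.H32.Dense Pool.STK Pool.KA Pool.KSAT Pool.K2S Pool.PB Pool.S6C
open Pool.GEN Pool.CHT Pool.CHX Pool.ISO Pool.D2R Pool.D2Z Pool.D2F Pool.RCV
open Pool.PB.Trl (rt rt_mem t_rt)

variable {m J : ℕ}

/-- **The second derivative of the row label on the vectors of the mixed frame.** -/
theorem ex_q {F : Fam m J} {c : ℕ → Fin m} {r w a v p v' : ℕ} {g₀ gT : ℕ → ℕ} {U : ℝ}
    {B : F.Ω → Prop} {G₀ : PtT F → ℕ → MvPolynomial (Option (Fin m)) ℝ}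
    {H₀ : LnT F → ℕ → MvPolynomial (Option (Fin m)) ℝ}
    {T : PtT F → ℕ → MvPolynomial (Option (Fin m)) ℝ}
    {TH : LnT F → ℕ → MvPolynomial (Option (Fin m)) ℝ}
    {Ht : LnT F → MvPolynomial (Option (Fin m)) ℝ} (hc : Set.InjOn c (Set.Iio r))
    (h : ROut1 F c r w a v g₀ gT p U B G₀ H₀ T TH Ht) (ha : a ≤ J) (hU : 0 ≤ U) {Y : ℝ}
    (hY : 2 ≤ Y) (hUY : U ≤ Y) (hrY : (r : ℝ) ≤ Y) (hv : v ≤ v') {Sc : ℕ → Prop}
    {ψ : ℕ → MvPolynomial (Option (Fin m)) ℝ} {ω : F.Ω} (hω : B ω)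
    (hS : StaQ c r a (a + v) v' g₀ gT Y Sc ψ (TH (slam F a ω)) (G₀ (ptr F J ω)) (bt F ω)
      (bd F ω))
    (hT : ∀ l < r, ¬ Sc l → TH (slam F a ω) l = Hno (c l) (fun s => H₀ s l) (slam F a ω))
    (hcur : ∀ l ≤ r, ∀ V : Option (Fin m) → ℝ, |hs (G₀ (ptr F J ω) l) (bt F ω) (bd F ω) V| ≤
      Y * (2 ^ a / 2 ^ g₀ l) * nrm c (G₀ (ptr F J ω)) g₀ a l (bt F ω) V)
    (hψ : ∀ l, DepC c l (ψ l)) (hG : ∀ l, DepC c l (G₀ (ptr F J ω) l)) {x : ℕ}
    (hxs : ¬ Sc x) :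
    |hs (Ht (slam F w ω)) (bt F ω) (bd F ω) (ev c r (mx Sc (fun l => grd (ψ l) (bt F ω))
        (fun l => grd (G₀ (ptr F J ω) l) (bt F ω))) x) -
      ∑ s ∈ range r, wt Sc (fun s => cv (grd (G₀ (ptr F J ω) r) (bt F ω) -
          grd (Ht (slam F w ω)) (bt F ω)) (ev c r (mx Sc (fun l => grd (ψ l) (bt F ω))
          (fun l => grd (G₀ (ptr F J ω) l) (bt F ω))) s) *
        hs (ψ s) (bt F ω) (bd F ω) (ev c r (mx Sc (fun l => grd (ψ l) (bt F ω))
          (fun l => grd (G₀ (ptr F J ω) l) (bt F ω))) x)) s| ≤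
      Y ^ ((2 * r + 10) * (r + 1) + 10 + 3 * r) *
        (2 ^ (a + v') / 2 ^ p + 2 ^ a / 2 ^ g₀ r) * 2 ^ g₀ x := by
  obtain ⟨Ξ, hΞ⟩ : ∃ Ξ, Ξ = mx Sc (fun l => grd (ψ l) (bt F ω))
    (fun l => grd (G₀ (ptr F J ω) l) (bt F ω)) := ⟨_, rfl⟩
  rw [← hΞ]
  have hΞc : ∀ l, CvC c l (Ξ l) := by
    rw [hΞ]
    exact mx_cvc (fun l => cvc_grd (hψ l) _) (fun l => cvc_grd (hG l) _)
  obtain ⟨V, hVd⟩ : ∃ V, V = ev c r Ξ x := ⟨_, rfl⟩
  rw [← hVd]
  have h0 : V none = 0 := by rw [hVd]; exact ev_none _ _ _ _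
  have hcomp : ∀ l < r, ∀ s, ev c r Ξ s (some (c l)) - cv (Ξ l) (ev c r Ξ s) =
      if l = s then 1 else 0 := fun l hl s => ev_comp hc hΞc s hl
  have hVs : ∀ l < r, Sc l → V (some (c l)) = dd (ψ l) (bt F ω) V := by
    intro l hl hsc
    have h1 := hcomp l hl x
    rw [if_neg (fun h5 : l = x => hxs (h5 ▸ hsc)), ← hVd, hΞ, mx_pos hsc, cv_grd] at h1
    linarith
  have hVr : ∀ l < r, ¬ Sc l →
      2 ^ g₀ l * |V (some (c l)) - dd (G₀ (ptr F J ω) l) (bt F ω) V| ≤ 2 ^ g₀ x := by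
    intro l hl hsc
    have h1 := hcomp l hl x
    rw [← hVd, hΞ, mx_neg hsc, cv_grd] at h1
    rw [h1]
    split_ifs with h2
    · rw [h2, abs_one, mul_one]
    · rw [abs_zero, mul_zero]
      positivity
  have hd : ∀ l < r, ¬ Sc l → ∀ V : Option (Fin m) → ℝ,
      |dd (TH (slam F a ω) l) (bt F ω) V - dd (G₀ (ptr F J ω) l) (bt F ω) V| ≤
        Y / 2 ^ g₀ l * nrm c (G₀ (ptr F J ω)) g₀ a l (bt F ω) V := by
    intro l hl hsc V
    have h1 := (h.dif ω hω l hl.le).1 V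
    rw [dd_sub, ← hT l hl hsc] at h1
    exact h1.trans (mul_le_mul_of_nonneg_right (div_le_div_of_nonneg_right hUY (by positivity))
      (nrm_nonneg _ _ _ _ _ _ _))
  have hX := (nat_q hS hY hd (by positivity) h0 hVs hVr r le_rfl).1
  -- the correction
  obtain ⟨ζ, hζ⟩ : ∃ ζ : ℕ → ℝ, ζ = wt Sc (fun s => hs (ψ s) (bt F ω) (bd F ω) V) := ⟨_, rfl⟩
  obtain ⟨Z, hZd⟩ : ∃ Z : Option (Fin m) → ℝ, Z = ∑ s ∈ range r, ζ s • ev c r Ξ s := ⟨_, rfl⟩
  have hZ0 : Z none = 0 := by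
    rw [hZd, Finset.sum_apply]
    refine Finset.sum_eq_zero fun s _ => ?_
    rw [Pi.smul_apply, ev_none, smul_zero]
  have hcvs : ∀ (φ : Option (Fin m) → ℝ) (S : Finset ℕ),
      cv φ (∑ s ∈ S, ζ s • ev c r Ξ s) = ∑ s ∈ S, ζ s * cv φ (ev c r Ξ s) := by
    intro φ S
    induction S using Finset.induction_on with
    | empty =>
      rw [Finset.sum_empty, Finset.sum_empty]
      unfold cv
      simp
    | insert i S hi ih =>
      rw [Finset.sum_insert hi, Finset.sum_insert hi, cv_add, cv_smul, ih]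
  have hZc : ∀ l < r, Z (some (c l)) - cv (Ξ l) Z = ζ l := by
    intro l hl
    rw [hZd, hcvs, Finset.sum_apply, ← Finset.sum_sub_distrib]
    have e1 : ∀ s ∈ range r, (ζ s • ev c r Ξ s) (some (c l)) - ζ s * cv (Ξ l) (ev c r Ξ s) =
        if s = l then ζ s else 0 := by
      intro s _
      have h1 := hcomp l hl s
      rw [Pi.smul_apply, smul_eq_mul, ← mul_sub, h1]
      by_cases h2 : l = s
      · rw [if_pos h2, if_pos h2.symm, mul_one]
      · rw [if_neg h2, if_neg (Ne.symm h2), mul_zero]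
    rw [Finset.sum_congr rfl e1, Finset.sum_ite_eq', if_pos (Finset.mem_range.2 hl)]
  have hZs : ∀ l < r, Sc l → Z (some (c l)) = dd (ψ l) (bt F ω) Z +
      hs (ψ l) (bt F ω) (bd F ω) V := by
    intro l hl hsc
    have h1 := hZc l hl
    rw [hζ, wt_pos hsc, hΞ, mx_pos hsc, cv_grd] at h1
    linarith
  have hZr : ∀ l < r, ¬ Sc l → 2 ^ g₀ l * |Z (some (c l)) -
      dd (G₀ (ptr F J ω) l) (bt F ω) Z| ≤ Y * (2 ^ a * (Y ^ (3 * r) * 2 ^ g₀ x)) := by
    intro l hl hsc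
    have h1 := hZc l hl
    rw [hζ, wt_neg hsc, hΞ, mx_neg hsc, cv_grd] at h1
    rw [h1, abs_zero, mul_zero]
    positivity
  have hfin := row_q h ha hU hY hUY hrY hv hω hS hT hcur hX hVs hZ0 hZs hZr
  have e1 : dd (G₀ (ptr F J ω) r) (bt F ω) Z - dd (Ht (slam F w ω)) (bt F ω) Z =
      ∑ s ∈ range r, wt Sc (fun s => cv (grd (G₀ (ptr F J ω) r) (bt F ω) -
          grd (Ht (slam F w ω)) (bt F ω)) (ev c r Ξ s) *
        hs (ψ s) (bt F ω) (bd F ω) V) s := by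
    rw [← cv_grd, ← cv_grd, ← cv_subl, hZd, hcvs]
    refine Finset.sum_congr rfl fun s _ => ?_
    rw [hζ]
    by_cases hsc : Sc s
    · rw [wt_pos hsc, wt_pos hsc]
      ring
    · rw [wt_neg hsc, wt_neg hsc, zero_mul]
  rw [← e1]
  have e2 : hs (Ht (slam F w ω)) (bt F ω) (bd F ω) V - (dd (G₀ (ptr F J ω) r) (bt F ω) Z -
      dd (Ht (slam F w ω)) (bt F ω) Z) = hs (Ht (slam F w ω)) (bt F ω) (bd F ω) V +
      dd (Ht (slam F w ω)) (bt F ω) Z - dd (G₀ (ptr F J ω) r) (bt F ω) Z := by ring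
  rw [e2]
  refine hfin.trans (le_of_eq ?_)
  rw [pow_add Y ((2 * r + 10) * (r + 1) + 10)]
  ring

/-- **The charts of the static coordinates** of the window `i₀`, at the window `k`. -/
theorem CEv.staQ {F : Fam m J} {c : ℕ → Fin m} {r D Dr N M A cl : ℕ} {Sc : ℕ → Prop}
    {w e h pp : ℕ → ℕ} {z g gc gT g₀ : ℕ → ℕ → ℕ} {κ : ℝ} {B : F.Ω → Prop}
    {G : ℕ → PtT F → ℕ → MvPolynomial (Option (Fin m)) ℝ}
    {H : ℕ → LnT F → ℕ → MvPolynomial (Option (Fin m)) ℝ}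
    {T : ℕ → PtT F → ℕ → MvPolynomial (Option (Fin m)) ℝ}
    {TH : ℕ → LnT F → ℕ → MvPolynomial (Option (Fin m)) ℝ}
    {Gt : ℕ → PtT F → MvPolynomial (Option (Fin m)) ℝ}
    {Ht : ℕ → LnT F → MvPolynomial (Option (Fin m)) ℝ}
    (hE : CEv F c r D Dr N M A cl Sc w e h pp z g gc gT g₀ κ B G H T TH Gt Ht) {i₀ k X : ℕ}
    (hi : i₀ ≤ N) (hk : k ≤ N) (hw : w i₀ ≤ w k)
    (h1 : ∀ l < r, Sc l → gT k l ≤ gT i₀ l + X)
    (h2 : ∀ l < r, Sc l → g₀ k l + (A - w k) ≤ gT i₀ l + X)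
    (h3 : ∀ l < r, Sc l → cl ≤ gT i₀ l ∧ cl ≤ gT k l ∧ cl ≤ gc k l) {ω : F.Ω} (hω : B ω) :
    StaQ c r (w k) (w k + (A - w k)) (A - w k + 2 * cl) (g₀ k) (gT k) (2 ^ (6 * cl + X)) Sc
      (fun l => TH i₀ (slam F (w i₀) ω) l) (TH k (slam F (w k) ω)) (G k (ptr F J ω)) (bt F ω)
      (bd F ω) := by
  have hJ : w k ≤ J := (hE.wA k hk).trans hE.AJ
  have hY0 : (0 : ℝ) < 2 ^ (6 * cl + X) := by positivity
  have hlab := fun l (hl : l < r) (hs : Sc l) => (hE.lab l hl i₀ hi k hk hw).2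
    (gT k l - (cl + X)) (by
      have := h1 l hl hs
      have := h3 l hl hs
      omega) (by
      have := h3 l hl hs
      omega)
  have hbal := fun l (hl : l < r) (hs : Sc l) => (hE.lab l hl i₀ hi k hk hw).1
    (g₀ k l + (A - w k) - (3 * cl + X)) (by
      have := h2 l hl hs
      have := h3 l hl hs
      omega) (by
      have := h3 l hl hs
      have h5 := hE.ng k hk l hl.le
      omega)
  have e1 : ∀ l < r, Sc l → (2 : ℝ) ^ cl / 2 ^ (gT k l - (cl + X)) ≤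
      2 ^ (6 * cl + X) / 2 ^ gT k l := by
    intro l hl hs
    rw [div_le_div_iff₀ (by positivity) (by positivity), ← pow_add, ← pow_add]
    exact pow_le_pow_right₀ (by norm_num) (by omega)
  have e2 : ∀ l < r, Sc l → (2 : ℝ) ^ cl / 2 ^ (g₀ k l + (A - w k) - (3 * cl + X)) ≤
      2 ^ (6 * cl + X) / 2 ^ (g₀ k l + (A - w k + 2 * cl)) := by
    intro l hl hs
    rw [div_le_div_iff₀ (by positivity) (by positivity), ← pow_add, ← pow_add]
    exact pow_le_pow_right₀ (by norm_num) (by omega)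
  have e3 : (2 : ℝ) ^ cl ≤ 2 ^ (6 * cl + X) := pow_le_pow_right₀ (by norm_num) (by omega)
  refine ⟨fun l hl hc V => ?_, fun l hl hc V Z => ?_, fun l hl hc V => ?_,
    fun l hl hc V Z => ?_, fun l hl hc => ?_⟩
  · have h5 := (hlab l hl hc).win ω hω (rt F (w k) ω) (rt_mem F (w k) ω) V
    rw [ptw_rt F hJ ω, dd_sub] at h5
    exact h5.trans (mul_le_mul_of_nonneg_right (e1 l hl hc) (nrm_nonneg _ _ _ _ _ _ _))
  · have h5 := (hlab l hl hc).hsw ω hω (rt F (w k) ω) (rt_mem F (w k) ω) V Z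
    rw [ptw_rt F hJ ω, dd_sub, hs_sub] at h5
    have h6 : hs (TH i₀ (slam F (w i₀) ω) l) (bt F ω) (bd F ω) V +
        dd (TH i₀ (slam F (w i₀) ω) l) (bt F ω) Z -
        (hs (TH k (slam F (w k) ω) l) (bt F ω) (bd F ω) V +
          dd (TH k (slam F (w k) ω) l) (bt F ω) Z) =
        hs (TH i₀ (slam F (w i₀) ω) l) (bt F ω) (bd F ω) V -
          hs (TH k (slam F (w k) ω) l) (bt F ω) (bd F ω) V +
        (dd (TH i₀ (slam F (w i₀) ω) l) (bt F ω) Z -
          dd (TH k (slam F (w k) ω) l) (bt F ω) Z) := by ring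
    rw [h6]
    exact h5.trans (mul_le_mul_of_nonneg_right (e1 l hl hc) (add_nonneg
      (mul_nonneg (by positivity) (nrm_nonneg _ _ _ _ _ _ _)) (nrz_nonneg _ _ _ _ _ _ _ _ _)))
  · refine (rel1 (hbal l hl hc) hJ hω V).trans (add_le_add (mul_le_mul_of_nonneg_right
      (e2 l hl hc) (nrm_nonneg _ _ _ _ _ _ _)) (mul_le_mul_of_nonneg_right
      (div_le_div_of_nonneg_right e3 (by positivity)) (nrm_nonneg _ _ _ _ _ _ _)))
  · refine (rel2 (hbal l hl hc) hJ hω V Z).trans (add_le_add (mul_le_mul_of_nonneg_right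
      (e2 l hl hc) (add_nonneg (mul_nonneg (by positivity) (nrm_nonneg _ _ _ _ _ _ _))
        (nrz_nonneg _ _ _ _ _ _ _ _ _))) (mul_le_mul_of_nonneg_right
      (div_le_div_of_nonneg_right e3 (by positivity)) (add_nonneg
        (mul_nonneg (nrm_nonneg _ _ _ _ _ _ _) (nrm_nonneg _ _ _ _ _ _ _))
        (nrz_nonneg _ _ _ _ _ _ _ _ _))))
  · have h5 := ((hE.evs k hk).rgh l hl hc).1
    have h6 := hE.ng k hk l hl.le
    omega

/-- The exponent of `ex_cev`. -/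
def exC (r : ℕ) : ℕ := (r + 8) * ((2 * r + 10) * (r + 1) + 10 + 3 * r) + 2

/-- **(E_x) at the window `k`**: the second derivative of the row label of the window `i₁` in the
direction of the own line and of the frame vector of a rough coordinate `x`, in terms of the static
charts of the window `i₀`. -/
theorem ex_cev {F : Fam m J} {c : ℕ → Fin m} {r D Dr N M A cl : ℕ} {Sc : ℕ → Prop}
    {w e h pp : ℕ → ℕ} {z g gc gT g₀ : ℕ → ℕ → ℕ} {κ : ℝ} {B : F.Ω → Prop}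
    {G : ℕ → PtT F → ℕ → MvPolynomial (Option (Fin m)) ℝ}
    {H : ℕ → LnT F → ℕ → MvPolynomial (Option (Fin m)) ℝ}
    {T : ℕ → PtT F → ℕ → MvPolynomial (Option (Fin m)) ℝ}
    {TH : ℕ → LnT F → ℕ → MvPolynomial (Option (Fin m)) ℝ}
    {Gt : ℕ → PtT F → MvPolynomial (Option (Fin m)) ℝ}
    {Ht : ℕ → LnT F → MvPolynomial (Option (Fin m)) ℝ}
    (hE : CEv F c r D Dr N M A cl Sc w e h pp z g gc gT g₀ κ B G H T TH Gt Ht) {i₀ i₁ k X P : ℕ}
    (hi : i₀ ≤ N) (hi₁ : i₁ ≤ N) (hk : k ≤ N) (hw : w i₀ ≤ w k) (hw₁ : w i₁ ≤ w k)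
    (h1 : ∀ l < r, Sc l → gT k l ≤ gT i₀ l + X)
    (h2 : ∀ l < r, Sc l → g₀ k l + (A - w k) ≤ gT i₀ l + X)
    (h3 : ∀ l < r, Sc l → cl ≤ gT i₀ l ∧ cl ≤ gT k l ∧ cl ≤ gc k l)
    (hP1 : P + cl ≤ pp i₁) (hP2 : P + cl ≤ gc k r) {ω : F.Ω} (hω : B ω) {x : ℕ}
    (hxs : ¬ Sc x) :
    |hs (Ht i₁ (slam F (w i₁) ω)) (bt F ω) (bd F ω) (ev c r (mx Sc
        (fun l => grd (TH i₀ (slam F (w i₀) ω) l) (bt F ω))
        (fun l => grd (G k (ptr F J ω) l) (bt F ω))) x) -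
      ∑ s ∈ range r, wt Sc (fun s => cv (grd (G k (ptr F J ω) r) (bt F ω) -
          grd (Ht i₁ (slam F (w i₁) ω)) (bt F ω)) (ev c r (mx Sc
          (fun l => grd (TH i₀ (slam F (w i₀) ω) l) (bt F ω))
          (fun l => grd (G k (ptr F J ω) l) (bt F ω))) s) *
        hs (TH i₀ (slam F (w i₀) ω) s) (bt F ω) (bd F ω) (ev c r (mx Sc
          (fun l => grd (TH i₀ (slam F (w i₀) ω) l) (bt F ω))
          (fun l => grd (G k (ptr F J ω) l) (bt F ω))) x)) s| ≤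
      2 ^ (exC r * (cl + X + 1)) * (2 ^ A / 2 ^ P + 2 ^ w k / 2 ^ g₀ k r) * 2 ^ g₀ k x := by
  have hJ : w k ≤ J := (hE.wA k hk).trans hE.AJ
  have hA := hE.wA k hk
  have hr := hE.row i₁ hi₁ k hk hw₁ P hP1 hP2
  obtain ⟨E, hEd⟩ : ∃ E, E = cl + X + 1 := ⟨_, rfl⟩
  obtain ⟨Y, hY⟩ : ∃ Y : ℝ, Y = 2 ^ ((r + 8) * E) := ⟨_, rfl⟩
  have hle : ∀ {a : ℕ}, a ≤ (r + 8) * E → (2 : ℝ) ^ a ≤ Y := fun ha => by
    rw [hY]
    exact pow_le_pow_right₀ (by norm_num) ha
  have n0 : (r + 8) * E = r * E + 8 * E := by ring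
  have n1 : r ≤ r * E := Nat.le_mul_of_pos_right _ (by omega)
  have hY2 : 2 ≤ Y := by
    have := hle (a := 1) (by omega)
    rwa [pow_one] at this
  have hrY : (r : ℝ) ≤ Y := by
    have h5 : (r : ℝ) ≤ 2 ^ r := by exact_mod_cast (Nat.lt_two_pow_self).le
    exact h5.trans (hle (by omega))
  have hUY : (2 : ℝ) ^ cl ≤ Y := hle (by omega)
  have hS : StaQ c r (w k) (w k + (A - w k)) (A - w k + 2 * cl) (g₀ k) (gT k) Y Sc
      (fun l => TH i₀ (slam F (w i₀) ω) l) (TH k (slam F (w k) ω)) (G k (ptr F J ω)) (bt F ω)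
      (bd F ω) := by
    have h5 := hE.staQ hi hk hw h1 h2 h3 hω
    have h6 : (2 : ℝ) ^ (6 * cl + X) ≤ Y := hle (by omega)
    exact
      { c1 := fun l hl hs V => (h5.c1 l hl hs V).trans (mul_le_mul_of_nonneg_right
          (div_le_div_of_nonneg_right h6 (by positivity)) (nrm_nonneg _ _ _ _ _ _ _))
        c2 := fun l hl hs V Z => (h5.c2 l hl hs V Z).trans (mul_le_mul_of_nonneg_right
          (div_le_div_of_nonneg_right h6 (by positivity)) (add_nonneg (mul_nonneg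
            (by positivity) (nrm_nonneg _ _ _ _ _ _ _)) (nrz_nonneg _ _ _ _ _ _ _ _ _)))
        b1 := fun l hl hs V => (h5.b1 l hl hs V).trans (add_le_add (mul_le_mul_of_nonneg_right
          (div_le_div_of_nonneg_right h6 (by positivity)) (nrm_nonneg _ _ _ _ _ _ _))
          (mul_le_mul_of_nonneg_right (div_le_div_of_nonneg_right h6 (by positivity))
            (nrm_nonneg _ _ _ _ _ _ _)))
        b2 := fun l hl hs V Z => (h5.b2 l hl hs V Z).trans (add_le_add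
          (mul_le_mul_of_nonneg_right (div_le_div_of_nonneg_right h6 (by positivity))
            (add_nonneg (mul_nonneg (by positivity) (nrm_nonneg _ _ _ _ _ _ _))
              (nrz_nonneg _ _ _ _ _ _ _ _ _))) (mul_le_mul_of_nonneg_right
            (div_le_div_of_nonneg_right h6 (by positivity)) (add_nonneg
              (mul_nonneg (nrm_nonneg _ _ _ _ _ _ _) (nrm_nonneg _ _ _ _ _ _ _))
              (nrz_nonneg _ _ _ _ _ _ _ _ _))))
        gr := h5.gr }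
  have hT : ∀ l < r, ¬ Sc l → TH k (slam F (w k) ω) l =
      Hno (c l) (fun s => H k s l) (slam F (w k) ω) := fun l hl hs =>
    ((hE.evs k hk).rgh l hl hs).2.2 _
  have hcur : ∀ l ≤ r, ∀ V : Option (Fin m) → ℝ, |hs (G k (ptr F J ω) l) (bt F ω) (bd F ω) V| ≤
      Y * (2 ^ w k / 2 ^ g₀ k l) * nrm c (G k (ptr F J ω)) (g₀ k) (w k) l (bt F ω) V := by
    intro l hl V
    have h5 := hE.cur k hk ω hω l hl (bd F ω) V
    have h6 := (nrm_pre c (G k (ptr F J ω)) (g₀ k) (w k) hl (bt F ω) (bd F ω)).trans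
      (nrm_bd hr hω)
    have h7 := nrm_nonneg c (G k (ptr F J ω)) (g₀ k) (w k) l (bt F ω) V
    have h8 : (2 : ℝ) ^ cl * (1 + r * 2 ^ cl) ≤ Y := by
      have h9 : (1 : ℝ) ≤ 2 ^ cl := one_le_pow₀ (by norm_num)
      have h10 : (r : ℝ) + 1 ≤ 2 ^ r := by exact_mod_cast (Nat.lt_two_pow_self (n := r))
      have h11 : (1 : ℝ) + r * 2 ^ cl ≤ 2 ^ r * 2 ^ cl := by
        have := mul_le_mul_of_nonneg_right h10 (show (0 : ℝ) ≤ 2 ^ cl by positivity)
        linarith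
      calc (2 : ℝ) ^ cl * (1 + r * 2 ^ cl) ≤ 2 ^ cl * (2 ^ r * 2 ^ cl) :=
            mul_le_mul_of_nonneg_left h11 (by positivity)
        _ = 2 ^ (cl + (r + cl)) := by rw [pow_add, pow_add]
        _ ≤ Y := hle (by omega)
    calc _ ≤ 2 ^ cl / 2 ^ g₀ k l * (nrm c (G k (ptr F J ω)) (g₀ k) (w k) l (bt F ω) (bd F ω) *
          nrm c (G k (ptr F J ω)) (g₀ k) (w k) l (bt F ω) V) := h5
      _ ≤ 2 ^ cl / 2 ^ g₀ k l * ((1 + r * 2 ^ cl) * 2 ^ w k *
          nrm c (G k (ptr F J ω)) (g₀ k) (w k) l (bt F ω) V) :=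
          mul_le_mul_of_nonneg_left (mul_le_mul_of_nonneg_right h6 h7) (by positivity)
      _ = (2 ^ cl * (1 + r * 2 ^ cl)) * (2 ^ w k / 2 ^ g₀ k l) *
          nrm c (G k (ptr F J ω)) (g₀ k) (w k) l (bt F ω) V := by ring
      _ ≤ _ := mul_le_mul_of_nonneg_right (mul_le_mul_of_nonneg_right h8 (by positivity)) h7
  have hfin := ex_q (hE.inj.mono (Set.Iio_subset_Iio (by omega))) hr hJ (by positivity) hY2 hUY
    hrY (v' := A - w k + 2 * cl) (by omega) hω hS hT hcur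
    (fun l => (hE.evs i₀ hi).thin.depH _ l) (fun l => (hE.evs k hk).ball.depG _ l) hxs
  refine hfin.trans (mul_le_mul_of_nonneg_right ?_ (by positivity))
  have e1 : (2 : ℝ) ^ (w k + (A - w k + 2 * cl)) / 2 ^ P = 2 ^ (2 * cl) * (2 ^ A / 2 ^ P) := by
    have e2 : w k + (A - w k + 2 * cl) = 2 * cl + A := by omega
    rw [e2, pow_add]
    ring
  obtain ⟨q, hq⟩ : ∃ q, q = (2 * r + 10) * (r + 1) + 10 + 3 * r := ⟨_, rfl⟩
  rw [e1, ← hq]
  have h2c : (1 : ℝ) ≤ 2 ^ (2 * cl) := one_le_pow₀ (by norm_num)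
  have h5 : 2 ^ (2 * cl) * ((2 : ℝ) ^ A / 2 ^ P) + 2 ^ w k / 2 ^ g₀ k r ≤
      2 ^ (2 * cl) * (2 ^ A / 2 ^ P + 2 ^ w k / 2 ^ g₀ k r) := by
    have h6 : (0 : ℝ) ≤ 2 ^ w k / 2 ^ g₀ k r := by positivity
    rw [mul_add]
    exact add_le_add le_rfl (le_mul_of_one_le_left h6 h2c)
  calc Y ^ q * (2 ^ (2 * cl) * ((2 : ℝ) ^ A / 2 ^ P) + 2 ^ w k / 2 ^ g₀ k r) ≤
        Y ^ q * (2 ^ (2 * cl) * (2 ^ A / 2 ^ P + 2 ^ w k / 2 ^ g₀ k r)) :=
        mul_le_mul_of_nonneg_left h5 (by rw [hY]; positivity)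
    _ = (Y ^ q * 2 ^ (2 * cl)) * (2 ^ A / 2 ^ P + 2 ^ w k / 2 ^ g₀ k r) := by ring
    _ ≤ _ := by
      refine mul_le_mul_of_nonneg_right ?_ (by positivity)
      rw [hY, ← pow_mul, ← pow_add]
      refine pow_le_pow_right₀ (by norm_num) ?_
      unfold exC
      rw [← hq, ← hEd]
      nlinarith

end Pool.TN
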